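import Pool.Agent.Lib.H73D.Main

namespace Pool.Agent.Lib.H73D

open Finset

/-- One prime is not enough. -/
theorem d73_one (p a : ℕ) (hp : p.Prime) : F p a ≠ 2 := by
  have h := d73_F_lt p 2 a le_rfl hp.two_le
  norm_num at h
  exact h.ne

/-- Two primes. -/
theorem d73_two (p q a b : ℕ) (hp : p.Prime) (hq : q.Prime) (hpq : p < q) (ha : 2 ≤ a)
    (hb : 2 ≤ b) (h : F p a * F q b = 2) : p = 2 ∧ q = 3 ∧ a = 2 ∧ b = 3 := by
  have pa := d73_F_pos p a hp.two_le
  have pb := d73_F_pos q b hq.two_le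
  by_cases hp3 : 3 ≤ p
  · exfalso
    have e1 := d73_F_lt p 3 a (by norm_num) hp3
    have e2 := d73_F_lt q 4 b (by norm_num) (by omega)
    have e4 := d73_mul_lt pb (lt_trans pa e1) e1 e2
    norm_num at e4
    linarith
  have hp2 : p = 2 := by
    have := hp.two_le
    omega
  subst hp2
  have hq' : (3 : ℚ) ≤ q := by
    have : 3 ≤ q := hpq
    exact_mod_cast this
  have hqo : q % 2 = 1 := (hq.eq_two_or_odd).resolve_left (by omega)
  obtain ⟨X, hX⟩ : ∃ X : ℤ, X = 2 ^ (a + 1) := ⟨_, rfl⟩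
  have hXq : ((X : ℤ) : ℚ) = (2 : ℚ) ^ (a + 1) := by
    rw [hX]
    push_cast
    rfl
  have hXe : X % 2 = 0 := by
    rw [hX, pow_succ]
    omega
  have hX8 : 8 ≤ X := by
    rw [hX]
    calc (8 : ℤ) = 2 ^ 3 := by norm_num
      _ ≤ 2 ^ (a + 1) := pow_le_pow_right₀ (by norm_num) (by omega)
  have he0 := d73_ee_pos q b (by omega) hb
  have hF2 := d73_F2 a
  rw [← hXq] at hF2
  have hFq := d73_F_ee q b (by omega) hb
  set e := ee q b with hedef
  have h1 : ((X : ℚ) - 1) * F q b = X + 2 := by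
    have h2 : F 2 a * (X + 2) * F q b = 2 * (X + 2) := by
      linear_combination (X + 2 : ℚ) * h
    rw [hF2] at h2
    linarith
  have h3 : 3 * ((q : ℚ) - 1 + e) = X - 1 := by
    have h4 : ((X : ℚ) - 1) * (q + e) = (X + 2) * (q - 1 + e) := by
      rw [← hFq, ← h1]
      ring
    linarith
  have h5 : ((X + 2 - 3 * q : ℤ) : ℚ) = 3 * e := by
    push_cast
    linarith
  by_cases hb4 : 4 ≤ b
  · exfalso
    have h6 := d73_e4le q b (by omega) hb4
    rw [← hedef] at h6
    have h7 : 3 * e < 1 := by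
      have : (9 : ℚ) ≤ (q : ℚ) ^ 2 := by nlinarith
      nlinarith
    have h8 : (0 : ℚ) < 3 * e := by linarith
    rw [← h5] at h7 h8
    have a1 : (X + 2 - 3 * q : ℤ) < 1 := by exact_mod_cast h7
    have a2 : 0 < (X + 2 - 3 * q : ℤ) := by exact_mod_cast h8
    omega
  have hb23 : b = 2 ∨ b = 3 := by omega
  rcases hb23 with hb2 | hb2
  · exfalso
    have h6 := d73_e2 q (by omega)
    have h7 : (((X + 2 - 3 * q) * q : ℤ) : ℚ) = ((3 * (q + 1) : ℤ) : ℚ) := by
      rw [Int.cast_mul, h5, hedef, hb2]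
      push_cast
      linarith
    have h8 : ((X + 2 - 3 * q) * q : ℤ) = 3 * (q + 1) := by exact_mod_cast h7
    have h9 : (q : ℤ) ∣ 3 := by
      have h10 : (q : ℤ) ∣ 3 * (q + 1) := Dvd.intro_left _ h8
      have h11 : (3 : ℤ) = 3 * (q + 1) - q * 3 := by ring
      rw [h11]
      exact dvd_sub h10 (dvd_mul_right _ _)
    have h12 : (q : ℤ) ≤ 3 := Int.le_of_dvd (by norm_num) h9
    have h13 : q = 3 := by omega
    subst h13
    push_cast at h8
    omega
  · have h6 := d73_e3 q (by omega)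
    have h7 : (((X + 2 - 3 * q) * q : ℤ) : ℚ) = ((3 : ℤ) : ℚ) := by
      rw [Int.cast_mul, h5, hedef, hb2]
      push_cast
      linarith
    have h8 : ((X + 2 - 3 * q) * q : ℤ) = 3 := by exact_mod_cast h7
    have h9 : (q : ℤ) ∣ 3 := Dvd.intro_left _ h8
    have h12 : (q : ℤ) ≤ 3 := Int.le_of_dvd (by norm_num) h9
    have h13 : q = 3 := by omega
    subst h13
    push_cast at h8
    have hX88 : X = 8 := by omega
    refine ⟨rfl, rfl, ?_, hb2⟩
    have h14 : (2 : ℤ) ^ (a + 1) = 2 ^ 3 := by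
      rw [← hX, hX88]
      norm_num
    have h15 : a + 1 = 3 := Int.pow_right_injective (by norm_num) h14
    omega

/-- Three primes are impossible. -/
theorem d73_three (p q r a b c : ℕ) (hp : p.Prime) (hq : q.Prime) (hr : r.Prime) (hpq : p < q)
    (hqr : q < r) (ha : 2 ≤ a) (hb : 2 ≤ b) (hc : 2 ≤ c) : F p a * F q b * F r c ≠ 2 := by
  by_cases hp3 : 3 ≤ p
  · exact d73_odd p q r a b c hp hq hr hpq hqr hp3 ha hb hc
  · have hp2 : p = 2 := by
      have := hp.two_le
      omega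
    subst hp2
    exact d73_even3 q r a b c hq hr hqr hpq ha hb hc

/-- At most three prime powers with exponents at least 2. -/
theorem d73_key (S : Finset ℕ) (v : ℕ → ℕ) (hS : ∀ p ∈ S, p.Prime ∧ 2 ≤ v p)
    (hcard : S.card ≤ 3) (hprod : ∏ p ∈ S, F p (v p) = 2) :
    S = {2, 3} ∧ v 2 = 2 ∧ v 3 = 3 := by
  have hc : S.card = 0 ∨ S.card = 1 ∨ S.card = 2 ∨ S.card = 3 := by omega
  rcases hc with hc | hc | hc | hc
  · rw [Finset.card_eq_zero] at hc
    subst hc
    norm_num at hprod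
  · rw [Finset.card_eq_one] at hc
    obtain ⟨x, rfl⟩ := hc
    rw [Finset.prod_singleton] at hprod
    exact absurd hprod (d73_one x _ (hS x (by simp)).1)
  · rw [Finset.card_eq_two] at hc
    obtain ⟨x, y, hxy, rfl⟩ := hc
    rw [Finset.prod_pair hxy] at hprod
    have hx := hS x (by simp)
    have hy := hS y (by simp)
    rcases lt_or_gt_of_ne hxy with hlt | hlt
    · obtain ⟨h1, h2, h3, h4⟩ := d73_two x y _ _ hx.1 hy.1 hlt hx.2 hy.2 hprod
      subst h1 h2
      exact ⟨rfl, h3, h4⟩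
    · rw [mul_comm] at hprod
      obtain ⟨h1, h2, h3, h4⟩ := d73_two y x _ _ hy.1 hx.1 hlt hy.2 hx.2 hprod
      subst h1 h2
      exact ⟨Finset.pair_comm 3 2, h3, h4⟩
  · rw [Finset.card_eq_three] at hc
    obtain ⟨x, y, z, hxy, hxz, hyz, rfl⟩ := hc
    have hx := hS x (by simp)
    have hy := hS y (by simp)
    have hz := hS z (by simp)
    have hp : F x (v x) * F y (v y) * F z (v z) = 2 := by
      rw [Finset.prod_insert (by simp [hxy, hxz]), Finset.prod_pair hyz] at hprod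
      linarith
    exfalso
    rcases lt_or_gt_of_ne hxy with h1 | h1 <;> rcases lt_or_gt_of_ne hyz with h2 | h2 <;>
      rcases lt_or_gt_of_ne hxz with h3 | h3
    · exact d73_three x y z _ _ _ hx.1 hy.1 hz.1 h1 h2 hx.2 hy.2 hz.2 hp
    · omega
    · exact d73_three x z y _ _ _ hx.1 hz.1 hy.1 h3 h2 hx.2 hz.2 hy.2 (by linarith)
    · exact d73_three z x y _ _ _ hz.1 hx.1 hy.1 h3 h1 hz.2 hx.2 hy.2 (by linarith)
    · exact d73_three y x z _ _ _ hy.1 hx.1 hz.1 h1 h3 hy.2 hx.2 hz.2 (by linarith)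
    · exact d73_three y z x _ _ _ hy.1 hz.1 hx.1 h2 h3 hy.2 hz.2 hx.2 (by linarith)
    · omega
    · exact d73_three z y x _ _ _ hz.1 hy.1 hx.1 h2 h1 hz.2 hy.2 hx.2 (by linarith)

theorem d73_inA_108 : InA 108 := by
  unfold InA sig usig
  decide +kernel

/-- The general form. -/
theorem d73_general (n : ℕ) (h : InA n) (h3 : (n.primeFactors.filter (fun p => p ^ 2 ∣ n)).card ≤ 3) :
    ∃ s : ℕ, Squarefree s ∧ Nat.Coprime 108 s ∧ n = 108 * s := by
  have hn0 : n ≠ 0 := by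
    have := h.1
    omega
  obtain ⟨hS, hv2, hv3⟩ := d73_key _ (fun p => n.factorization p) (by
    intro p hp
    rw [Finset.mem_filter] at hp
    have hpp := Nat.prime_of_mem_primeFactors hp.1
    exact ⟨hpp, (hpp.pow_dvd_iff_le_factorization hn0).1 hp.2⟩) h3 (d73_prod2 n h)
  have h4 : 2 ^ 2 ∣ n := (Nat.prime_two.pow_dvd_iff_le_factorization hn0).2 hv2.ge
  have h27 : 3 ^ 3 ∣ n := (Nat.prime_three.pow_dvd_iff_le_factorization hn0).2 hv3.ge
  have h108 : 108 ∣ n := by
    have : 2 ^ 2 * 3 ^ 3 ∣ n := Nat.Coprime.mul_dvd_of_dvd_of_dvd (by norm_num) h4 h27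
    norm_num at this
    exact this
  obtain ⟨s, rfl⟩ := h108
  have h2s : ¬ 2 ∣ s := by
    intro hd
    have : 2 ^ 3 ∣ 108 * s := by
      obtain ⟨t, rfl⟩ := hd
      exact ⟨27 * t, by ring⟩
    have := (Nat.prime_two.pow_dvd_iff_le_factorization hn0).1 this
    omega
  have h3s : ¬ 3 ∣ s := by
    intro hd
    have : 3 ^ 4 ∣ 108 * s := by
      obtain ⟨t, rfl⟩ := hd
      exact ⟨4 * t, by ring⟩
    have := (Nat.prime_three.pow_dvd_iff_le_factorization hn0).1 this
    omega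
  refine ⟨s, ?_, ?_, rfl⟩
  · rw [Nat.squarefree_iff_prime_squarefree]
    intro x hx hxs
    have hxn : x ^ 2 ∣ 108 * s := by
      rw [pow_two]
      exact Dvd.dvd.mul_left hxs 108
    have hmem : x ∈ ((108 * s).primeFactors.filter (fun p => p ^ 2 ∣ 108 * s)) := by
      rw [Finset.mem_filter, Nat.mem_primeFactors]
      exact ⟨⟨hx, dvd_trans (dvd_pow_self x (by norm_num)) hxn, hn0⟩, hxn⟩
    rw [hS] at hmem
    simp only [Finset.mem_insert, Finset.mem_singleton] at hmem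
    have hxd : x ∣ s := dvd_trans (dvd_mul_right x x) hxs
    rcases hmem with rfl | rfl
    · exact h2s hxd
    · exact h3s hxd
  · have e1 : Nat.Coprime 2 s := (Nat.Prime.coprime_iff_not_dvd Nat.prime_two).2 h2s
    have e2 : Nat.Coprime 3 s := (Nat.Prime.coprime_iff_not_dvd Nat.prime_three).2 h3s
    have : (108 : ℕ) = 2 ^ 2 * 3 ^ 3 := by norm_num
    rw [this]
    exact Nat.Coprime.mul_left (Nat.Coprime.pow_left 2 e1) (Nat.Coprime.pow_left 3 e2)

/-- The primitive form. -/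
theorem d73_primitive (n : ℕ) (h : Primitive n) (h3 : n.primeFactors.card ≤ 3) : n = 108 := by
  obtain ⟨s, -, -, hs⟩ := d73_general n h.1
    (le_trans (Finset.card_le_card (Finset.filter_subset _ _)) h3)
  have hn0 := h.1.1
  by_contra hne
  have hlt : 108 < n := by
    rcases Nat.eq_zero_or_pos s with h0 | h0
    · subst h0
      omega
    · have : 1 ≤ s := h0
      omega
  exact h.2 108 ⟨s, hs⟩ hlt d73_inA_108

end Pool.Agent.Lib.H73D
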