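import Mathlib

namespace Pool.Agent.Lib.H73D

/-- The sign and order facts: from the product equation, both factors are positive
and the first one is smaller. -/
theorem d73_sign (X p q : ℤ) (e g : ℚ) (hX : 8 ≤ X) (hp : 3 ≤ p) (hq : p + 2 ≤ q)
    (he0 : 0 < e) (hg0 : 0 < g) (he : e ≤ 4 / 3)
    (H : (3 * (p - 1 + e) - (X - 1)) * (3 * (q - 1 + g) - (X - 1)) = ((X : ℚ) - 1) * (X + 2)) :
    0 < 3 * ((p : ℚ) - 1 + e) - (X - 1) ∧
    3 * ((p : ℚ) - 1 + e) - (X - 1) < 3 * (q - 1 + g) - (X - 1) := by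
  have hX' : (8 : ℚ) ≤ X := by exact_mod_cast hX
  have hp' : (3 : ℚ) ≤ p := by exact_mod_cast hp
  have hq' : (p : ℚ) + 2 ≤ q := by exact_mod_cast hq
  refine ⟨?_, by linarith⟩
  by_contra hU
  push Not at hU
  have hUl : -((X : ℚ) - 1) < 3 * ((p : ℚ) - 1 + e) - (X - 1) := by linarith
  have hVl : -((X : ℚ) - 1) < 3 * ((q : ℚ) - 1 + g) - (X - 1) := by linarith
  have hprod : 0 < ((X : ℚ) - 1) * (X + 2) := by nlinarith
  set U := 3 * ((p : ℚ) - 1 + e) - (X - 1) with hUdef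
  set V := 3 * ((q : ℚ) - 1 + g) - (X - 1) with hVdef
  have hV : V < 0 := by
    by_contra hV
    push Not at hV
    nlinarith
  nlinarith [mul_pos (sub_pos.mpr hUl) (sub_pos.mpr hVl)]

/-- Case b = 2 or 3 and c at least 5. -/
theorem d73_T3 (X p q k : ℤ) (e g : ℚ) (hX : 8 ≤ X) (hp : 3 ≤ p) (hq : p + 2 ≤ q)
    (he0 : 0 < e) (hg0 : 0 < g) (he : e ≤ 4 / 3)
    (H : (3 * (p - 1 + e) - (X - 1)) * (3 * (q - 1 + g) - (X - 1)) = ((X : ℚ) - 1) * (X + 2))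
    (hk : (p : ℚ) * e = k) (hg : g * ((q : ℚ) ^ 3 + q) ≤ 1) : False := by
  obtain ⟨hU, hUV⟩ := d73_sign X p q e g hX hp hq he0 hg0 he H
  have hX' : (8 : ℚ) ≤ X := by exact_mod_cast hX
  have hp' : (3 : ℚ) ≤ p := by exact_mod_cast hp
  have hq' : (p : ℚ) + 2 ≤ q := by exact_mod_cast hq
  have hKU : ((p * (3 * p - X - 2) + 3 * k : ℤ) : ℚ) = p * (3 * ((p : ℚ) - 1 + e) - (X - 1)) := by
    push_cast
    rw [← hk]
    ring
  set K : ℤ := p * (3 * p - X - 2) + 3 * k with hK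
  have hD : ((p * ((X - 1) * (X + 2)) - K * (3 * q - X - 2) : ℤ) : ℚ) = 3 * g * K := by
    push_cast
    rw [hKU, ← H]
    ring
  have hKpos : 0 < (K : ℚ) := by
    rw [hKU]
    exact mul_pos (by linarith) hU
  have hKle : (K : ℚ) ≤ p * (3 * p - 6) := by
    rw [hKU]
    apply mul_le_mul_of_nonneg_left _ (by linarith)
    linarith
  have hqq : (p : ℚ) ^ 3 + 6 * p ^ 2 + 13 * p + 10 ≤ (q : ℚ) ^ 3 + q := by
    have h1 : ((p : ℚ) + 2) ^ 3 ≤ (q : ℚ) ^ 3 := by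
      apply pow_le_pow_left₀ (by linarith) hq'
    nlinarith
  have hsm : 3 * g * K < 1 := by
    have h2 : 3 * g * K * ((q : ℚ) ^ 3 + q) ≤ 3 * K := by
      have := mul_le_mul_of_nonneg_left hg (by linarith : (0 : ℚ) ≤ 3 * K)
      nlinarith
    have h3 : 3 * (K : ℚ) < (q : ℚ) ^ 3 + q := by
      have h4 : 0 ≤ ((p : ℚ) - 3) * p ^ 2 := mul_nonneg (by linarith) (by positivity)
      nlinarith
    by_contra h5
    push Not at h5
    have h6 : 0 < (q : ℚ) ^ 3 + q := by nlinarith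
    nlinarith
  have hpos : 0 < 3 * g * K := by positivity
  rw [← hD] at hsm hpos
  have a1 : (p * ((X - 1) * (X + 2)) - K * (3 * q - X - 2) : ℤ) < 1 := by exact_mod_cast hsm
  have a2 : 0 < (p * ((X - 1) * (X + 2)) - K * (3 * q - X - 2) : ℤ) := by exact_mod_cast hpos
  omega

/-- Case b = 4 and c at least 7. -/
theorem d73_T2a (X p q : ℤ) (e g : ℚ) (hX : 8 ≤ X) (hp : 3 ≤ p) (hq : p + 2 ≤ q)
    (he0 : 0 < e) (hg0 : 0 < g) (he : e ≤ 4 / 3)
    (H : (3 * (p - 1 + e) - (X - 1)) * (3 * (q - 1 + g) - (X - 1)) = ((X : ℚ) - 1) * (X + 2))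
    (hk : ((p : ℚ) * (p ^ 2 + p + 1)) * e = p + 1)
    (hg : g * ((q : ℚ) ^ 5 + q ^ 3 + q) ≤ 1) : False := by
  obtain ⟨hU, hUV⟩ := d73_sign X p q e g hX hp hq he0 hg0 he H
  have hX' : (8 : ℚ) ≤ X := by exact_mod_cast hX
  have hp' : (3 : ℚ) ≤ p := by exact_mod_cast hp
  have hq' : (p : ℚ) + 2 ≤ q := by exact_mod_cast hq
  have hDpos : 0 < (p : ℚ) * (p ^ 2 + p + 1) := by positivity
  have hKU : ((p * (p ^ 2 + p + 1) * (3 * p - X - 2) + 3 * (p + 1) : ℤ) : ℚ)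
      = (p * (p ^ 2 + p + 1)) * (3 * ((p : ℚ) - 1 + e) - (X - 1)) := by
    push_cast
    rw [← hk]
    ring
  set K : ℤ := p * (p ^ 2 + p + 1) * (3 * p - X - 2) + 3 * (p + 1) with hK
  have hD : ((p * (p ^ 2 + p + 1) * ((X - 1) * (X + 2)) - K * (3 * q - X - 2) : ℤ) : ℚ)
      = 3 * g * K := by
    push_cast
    rw [hKU, ← H]
    ring
  have hKpos : 0 < (K : ℚ) := by
    rw [hKU]
    exact mul_pos hDpos hU
  have hKle : (K : ℚ) ≤ (p * (p ^ 2 + p + 1)) * (3 * p - 6) := by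
    rw [hKU]
    apply mul_le_mul_of_nonneg_left _ hDpos.le
    linarith
  have hqq : (p : ℚ) ^ 5 + 10 * p ^ 4 + 40 * p ^ 3 ≤ (q : ℚ) ^ 5 + q ^ 3 + q := by
    have h1 : ((p : ℚ) + 2) ^ 5 ≤ (q : ℚ) ^ 5 := by
      apply pow_le_pow_left₀ (by linarith) hq'
    have h2 : 0 ≤ (q : ℚ) ^ 3 := by
      apply pow_nonneg
      linarith
    have h3 : 0 ≤ (p : ℚ) ^ 2 := by positivity
    nlinarith
  have hsm : 3 * g * K < 1 := by
    have h2 : 3 * g * K * ((q : ℚ) ^ 5 + q ^ 3 + q) ≤ 3 * K := by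
      have := mul_le_mul_of_nonneg_left hg (by linarith : (0 : ℚ) ≤ 3 * K)
      nlinarith
    have h3 : 3 * (K : ℚ) < (q : ℚ) ^ 5 + q ^ 3 + q := by
      have e4 : 0 ≤ (p : ℚ) ^ 4 := by positivity
      have e3 : 0 < (p : ℚ) ^ 3 := by positivity
      have e2 : 0 ≤ (p : ℚ) ^ 2 := by positivity
      have e5 : 0 ≤ (p : ℚ) ^ 5 := by positivity
      nlinarith
    by_contra h5
    push Not at h5
    have h6 : 0 < (q : ℚ) ^ 5 + q ^ 3 + q := by
      have : (0 : ℚ) < q := by linarith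
      positivity
    nlinarith
  have hpos : 0 < 3 * g * K := by positivity
  rw [← hD] at hsm hpos
  have a1 : (p * (p ^ 2 + p + 1) * ((X - 1) * (X + 2)) - K * (3 * q - X - 2) : ℤ) < 1 := by
    exact_mod_cast hsm
  have a2 : 0 < (p * (p ^ 2 + p + 1) * ((X - 1) * (X + 2)) - K * (3 * q - X - 2) : ℤ) := by
    exact_mod_cast hpos
  omega

end Pool.Agent.Lib.H73D
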