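import Pool.Agent.Lib.H73D.Core

namespace Pool.Agent.Lib.H73D

/-- Facts shared by all cases with b at least 5. -/
theorem d73_common (X p q : ℤ) (k : ℕ) (e g : ℚ) (hXk : X = 2 ^ k) (hX : 8 ≤ X) (hp : 3 ≤ p)
    (hpo : p % 2 = 1) (hq : p + 2 ≤ q)
    (he0 : 0 < e) (hg0 : 0 < g) (he : e * ((p : ℚ) ^ 3 + p) ≤ 1)
    (H : (3 * (p - 1 + e) - (X - 1)) * (3 * (q - 1 + g) - (X - 1)) = ((X : ℚ) - 1) * (X + 2)) :
    3 ≤ 3 * p - X - 2 ∧ 2 * (3 * p - X - 2) ≤ 3 * p - 2 ∧ 5 ≤ p ∧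
    0 < 3 * ((q : ℚ) - 1 + g) - (X - 1) ∧
    (3 * e * (3 * ((q : ℚ) - 1 + g) - (X - 1))) * ((p : ℚ) ^ 3 + p) * (3 * p - X - 2)
      < 3 * ((X - 1) * (X + 2)) ∧
    (3 * e * (3 * ((q : ℚ) - 1 + g) - (X - 1))) * ((p : ℚ) ^ 3 + p)
      < 9 * ((p - 1) * (p - 2)) := by
  have hX' : (8 : ℚ) ≤ X := by exact_mod_cast hX
  have hp' : (3 : ℚ) ≤ p := by exact_mod_cast hp
  have hq' : (p : ℚ) + 2 ≤ q := by exact_mod_cast hq
  have hp3 : (30 : ℚ) ≤ (p : ℚ) ^ 3 + p := by
    have h1 : (3 : ℚ) ^ 3 ≤ (p : ℚ) ^ 3 := pow_le_pow_left₀ (by norm_num) hp' 3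
    linarith
  have he30 : e * 30 ≤ 1 := by
    have := mul_le_mul_of_nonneg_left hp3 he0.le
    linarith
  obtain ⟨hU, hUV⟩ := d73_sign X p q e g hX hp hq he0 hg0 (by linarith) H
  have hV : 0 < 3 * ((q : ℚ) - 1 + g) - (X - 1) := lt_trans hU hUV
  have hxi0 : (-1 : ℚ) < ((3 * p - X - 2 : ℤ) : ℚ) := by
    push_cast
    linarith
  have hxi1 : -1 < 3 * p - X - 2 := by exact_mod_cast hxi0
  have hXe : X % 2 = 0 := by
    have : k ≠ 0 := by
      rintro rfl
      norm_num at hXk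
      omega
    obtain ⟨m, rfl⟩ := Nat.exists_eq_succ_of_ne_zero this
    rw [hXk, pow_succ]
    omega
  have hX3 : X % 3 ≠ 0 := by
    intro h3
    have hd : (3 : ℤ) ∣ 2 ^ k := by
      rw [← hXk]
      exact Int.dvd_of_emod_eq_zero h3
    have hpr : Prime (3 : ℤ) := Int.prime_three
    have := hpr.dvd_of_dvd_pow hd
    norm_num at this
  have hxi3 : 3 ≤ 3 * p - X - 2 := by omega
  have hxiX : 3 * p - X - 2 ≤ X := by
    by_contra hc
    push Not at hc
    have hc' : (X : ℚ) + 1 ≤ ((3 * p - X - 2 : ℤ) : ℚ) := by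
      have : X + 1 ≤ 3 * p - X - 2 := hc
      exact_mod_cast this
    push_cast at hc'
    have hUX : (X : ℚ) + 1 < 3 * ((p : ℚ) - 1 + e) - (X - 1) := by linarith
    have hVX : (X : ℚ) + 1 < 3 * ((q : ℚ) - 1 + g) - (X - 1) := by linarith
    nlinarith
  have hp5 : 5 ≤ p := by omega
  have hxiq : (3 : ℚ) ≤ 3 * p - X - 2 := by
    have : ((3 : ℤ) : ℚ) ≤ ((3 * p - X - 2 : ℤ) : ℚ) := by exact_mod_cast hxi3
    push_cast at this
    linarith
  have hB : (3 * e * (3 * ((q : ℚ) - 1 + g) - (X - 1))) * ((p : ℚ) ^ 3 + p) * (3 * p - X - 2)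
      < 3 * ((X - 1) * (X + 2)) := by
    have h1 : (3 * e * (3 * ((q : ℚ) - 1 + g) - (X - 1))) * ((p : ℚ) ^ 3 + p) * (3 * p - X - 2)
        ≤ 3 * ((3 * p - X - 2) * (3 * ((q : ℚ) - 1 + g) - (X - 1))) := by
      have h2 : 0 ≤ 3 * ((3 * p - X - 2) * (3 * ((q : ℚ) - 1 + g) - (X - 1))) := by
        have : 0 ≤ (3 * p - X - 2) * (3 * ((q : ℚ) - 1 + g) - (X - 1)) :=
          mul_nonneg (by linarith) hV.le
        linarith
      have h3 := mul_le_mul_of_nonneg_left he h2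
      nlinarith
    have h4 : (3 * p - X - 2) * (3 * ((q : ℚ) - 1 + g) - (X - 1)) < ((X : ℚ) - 1) * (X + 2) := by
      rw [← H]
      apply mul_lt_mul_of_pos_right _ hV
      linarith
    linarith
  refine ⟨hxi3, by omega, hp5, hV, hB, ?_⟩
  have hBpos : 0 ≤ (3 * e * (3 * ((q : ℚ) - 1 + g) - (X - 1))) * ((p : ℚ) ^ 3 + p) := by
    have : (0 : ℚ) ≤ (p : ℚ) ^ 3 + p := by linarith
    positivity
  have h5 : (3 * e * (3 * ((q : ℚ) - 1 + g) - (X - 1))) * ((p : ℚ) ^ 3 + p) * 3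
      ≤ (3 * e * (3 * ((q : ℚ) - 1 + g) - (X - 1))) * ((p : ℚ) ^ 3 + p) * (3 * p - X - 2) :=
    mul_le_mul_of_nonneg_left hxiq hBpos
  have h6 : ((X : ℚ) - 1) * (X + 2) ≤ (3 * p - 6) * (3 * p - 3) := by
    apply mul_le_mul <;> linarith
  nlinarith

/-- Case b at least 5 and c at least 4. -/
theorem d73_T2b (X p q : ℤ) (k : ℕ) (e g : ℚ) (hXk : X = 2 ^ k) (hX : 8 ≤ X) (hp : 3 ≤ p)
    (hpo : p % 2 = 1) (hq : p + 2 ≤ q)
    (he0 : 0 < e) (hg0 : 0 < g) (he : e * ((p : ℚ) ^ 3 + p) ≤ 1)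
    (H : (3 * (p - 1 + e) - (X - 1)) * (3 * (q - 1 + g) - (X - 1)) = ((X : ℚ) - 1) * (X + 2))
    (hg : g * (q : ℚ) ^ 2 ≤ 1) : False := by
  obtain ⟨hxi3, hxi2, hp5, hV, hB1, hB2⟩ :=
    d73_common X p q k e g hXk hX hp hpo hq he0 hg0 he H
  have hX' : (8 : ℚ) ≤ X := by exact_mod_cast hX
  have hp' : (5 : ℚ) ≤ p := by exact_mod_cast hp5
  have hq' : (p : ℚ) + 2 ≤ q := by exact_mod_cast hq
  have hxiq : (3 : ℚ) ≤ 3 * p - X - 2 := by
    have : ((3 : ℤ) : ℚ) ≤ ((3 * p - X - 2 : ℤ) : ℚ) := by exact_mod_cast hxi3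
    push_cast at this
    linarith
  have hxiq2 : 2 * (3 * (p : ℚ) - X - 2) ≤ 3 * p - 2 := by exact_mod_cast hxi2
  have hM : (((X - 1) * (X + 2) - (3 * p - X - 2) * (3 * q - X - 2) : ℤ) : ℚ)
      = 3 * (3 * p - X - 2) * g + 3 * e * (3 * ((q : ℚ) - 1 + g) - (X - 1)) := by
    push_cast
    rw [← H]
    ring
  set B := 3 * e * (3 * ((q : ℚ) - 1 + g) - (X - 1)) with hBdef
  have hBpos : 0 < B := by positivity
  have hApos : 0 < 3 * (3 * (p : ℚ) - X - 2) * g := by
    have : 0 < 3 * (p : ℚ) - X - 2 := by linarith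
    positivity
  have hAq : 3 * (3 * (p : ℚ) - X - 2) * g * (q : ℚ) ^ 2 ≤ 3 * (3 * p - X - 2) := by
    have := mul_le_mul_of_nonneg_left hg (by linarith : (0 : ℚ) ≤ 3 * (3 * p - X - 2))
    linarith
  set A := 3 * (3 * (p : ℚ) - X - 2) * g with hAdef
  have hqsq : ((p : ℚ) + 2) ^ 2 ≤ (q : ℚ) ^ 2 := pow_le_pow_left₀ (by linarith) hq' 2
  have hAp : A * ((p : ℚ) + 2) ^ 2 ≤ 3 * (3 * p - X - 2) := by
    have := mul_le_mul_of_nonneg_left hqsq hApos.le
    linarith
  have hsm : A + B < 1 := by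
    by_cases hp11 : 11 ≤ p
    · have hp11' : (11 : ℚ) ≤ p := by exact_mod_cast hp11
      have hA : A < 3 / 10 := by
        by_contra hc
        push Not at hc
        have h1 : 3 / 10 * ((p : ℚ) + 2) ^ 2 ≤ A * ((p : ℚ) + 2) ^ 2 :=
          mul_le_mul_of_nonneg_right hc (by positivity)
        nlinarith
      have hBl : B < 7 / 10 := by
        by_contra hc
        push Not at hc
        have h1 : 7 / 10 * ((p : ℚ) ^ 3 + p) ≤ B * ((p : ℚ) ^ 3 + p) :=
          mul_le_mul_of_nonneg_right hc (by positivity)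
        have t0 : (0 : ℚ) ≤ (p : ℚ) - 11 := by linarith
        have t2 : (0 : ℚ) ≤ ((p : ℚ) - 11) ^ 2 := by positivity
        have t3 : (0 : ℚ) ≤ ((p : ℚ) - 11) ^ 3 := by positivity
        nlinarith
      linarith
    · push Not at hp11
      have hX25 : X ≤ 25 := by omega
      have hk5 : k < 5 := by
        by_contra hk
        push Not at hk
        have : (2 : ℤ) ^ 5 ≤ 2 ^ k := pow_le_pow_right₀ (by norm_num) hk
        rw [← hXk] at this
        omega
      have hk3 : 3 ≤ k := by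
        by_contra hk
        push Not at hk
        have : (2 : ℤ) ^ k ≤ 2 ^ 2 := pow_le_pow_right₀ (by norm_num) (by omega)
        rw [← hXk] at this
        omega
      have hkk : k = 3 ∨ k = 4 := by omega
      rcases hkk with rfl | rfl
      · norm_num at hXk
        subst hXk
        have hp5' : p = 5 := by omega
        subst hp5'
        push_cast at hAp hB1 hB2
        norm_num at hAp hB1 hB2
        linarith
      · norm_num at hXk
        subst hXk
        have hp79 : p = 7 ∨ p = 9 := by omega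
        rcases hp79 with rfl | rfl
        · push_cast at hAp hB1 hB2
          norm_num at hAp hB1 hB2
          linarith
        · push_cast at hAp hB1 hB2
          norm_num at hAp hB1 hB2
          linarith
  have hpos : 0 < A + B := by linarith
  rw [← hM] at hsm hpos
  have a1 : ((X - 1) * (X + 2) - (3 * p - X - 2) * (3 * q - X - 2) : ℤ) < 1 := by
    exact_mod_cast hsm
  have a2 : 0 < ((X - 1) * (X + 2) - (3 * p - X - 2) * (3 * q - X - 2) : ℤ) := by
    exact_mod_cast hpos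
  omega

/-- The test of the finite part of the last case. -/
def d73_test (X p N s : ℤ) : Bool :=
  let xi := 3 * p - X - 2
  let M0 := (X - 1) * (X + 2)
  let v := (M0 - N) / xi
  let q := (v + X + 2 - s) / 3
  !(decide (3 ≤ xi) && decide (xi * v = M0 - N) && decide (3 * q = v + X + 2 - s) &&
    decide (1 ≤ N * q - 3 * xi) && decide ((N * q - 3 * xi) * (p ^ 3 + p) ≤ 3 * (q * v + 3)))

theorem d73_test_all : ∀ X ∈ [8, 16, 32, 64, 128, 256], ∀ p ∈ List.range 122,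
    ∀ N ∈ [1, 2, 3, 4, 5], ∀ s ∈ [0, 3], d73_test X (p : ℤ) N s = true := by
  decide +kernel

/-- Case b at least 5 and c = 2 or 3. -/
theorem d73_T1 (X p q s : ℤ) (k : ℕ) (e g : ℚ) (hXk : X = 2 ^ k) (hX : 8 ≤ X) (hp : 3 ≤ p)
    (hpo : p % 2 = 1) (hq : p + 2 ≤ q)
    (he0 : 0 < e) (hg0 : 0 < g) (he : e * ((p : ℚ) ^ 3 + p) ≤ 1)
    (H : (3 * (p - 1 + e) - (X - 1)) * (3 * (q - 1 + g) - (X - 1)) = ((X : ℚ) - 1) * (X + 2))
    (hs : s = 0 ∨ s = 3) (hg : 3 * (q : ℚ) * g = 3 + s * q) : False := by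
  obtain ⟨hxi3, hxi2, hp5, hV, hB1, hB2⟩ :=
    d73_common X p q k e g hXk hX hp hpo hq he0 hg0 he H
  have hX' : (8 : ℚ) ≤ X := by exact_mod_cast hX
  have hp' : (5 : ℚ) ≤ p := by exact_mod_cast hp5
  have hq' : (p : ℚ) + 2 ≤ q := by exact_mod_cast hq
  have hq0 : (0 : ℚ) < q := by linarith
  have hxiq : (3 : ℚ) ≤ 3 * p - X - 2 := by
    have : ((3 : ℤ) : ℚ) ≤ ((3 * p - X - 2 : ℤ) : ℚ) := by exact_mod_cast hxi3
    push_cast at this
    linarith
  have hxiq2 : 2 * (3 * (p : ℚ) - X - 2) ≤ 3 * p - 2 := by exact_mod_cast hxi2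
  set xi : ℤ := 3 * p - X - 2 with hxidef
  set v : ℤ := 3 * q - X - 2 + s with hvdef
  have hqV : (q : ℚ) * (3 * ((q : ℚ) - 1 + g) - (X - 1)) = q * v + 3 := by
    rw [hvdef]
    push_cast
    nlinarith
  have hqVpos : 0 < (q : ℚ) * v + 3 := by
    rw [← hqV]
    exact mul_pos hq0 hV
  set N : ℤ := (X - 1) * (X + 2) - xi * v with hNdef
  have hNq : (N : ℚ) * q = 3 * xi + q * (3 * e * (3 * ((q : ℚ) - 1 + g) - (X - 1))) := by
    have h1 : (N : ℚ) * q = q * (((X : ℚ) - 1) * (X + 2)) - q * xi * v := by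
      rw [hNdef]
      push_cast
      ring
    have h2 : (q : ℚ) * (((X : ℚ) - 1) * (X + 2))
        = (xi + 3 * e) * (q * v + 3) := by
      rw [← H, ← hqV, hxidef]
      push_cast
      ring
    have h3 : (q : ℚ) * (3 * e * (3 * ((q : ℚ) - 1 + g) - (X - 1))) = 3 * e * (q * v + 3) := by
      rw [← hqV]
      ring
    rw [h1, h2, h3]
    ring
  set B := 3 * e * (3 * ((q : ℚ) - 1 + g) - (X - 1)) with hBdef
  have hBpos : 0 < B := by positivity
  have hxiQ : ((xi : ℤ) : ℚ) = 3 * p - X - 2 := by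
    rw [hxidef]
    push_cast
    ring
  rw [← hxiQ] at hxiq hxiq2 hB1
  have hJ0 : 0 < ((N * q - 3 * xi : ℤ) : ℚ) := by
    push_cast
    rw [hNq]
    have : 0 < (q : ℚ) * B := mul_pos hq0 hBpos
    linarith
  have hJ1 : 1 ≤ N * q - 3 * xi := by
    have : 0 < N * q - 3 * xi := by exact_mod_cast hJ0
    omega
  have hJle : ((N * q - 3 * xi) * (p ^ 3 + p) : ℤ) ≤ 3 * (q * v + 3) := by
    have h1 : (((N * q - 3 * xi) * (p ^ 3 + p) : ℤ) : ℚ) ≤ ((3 * (q * v + 3) : ℤ) : ℚ) := by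
      push_cast
      rw [hNq, ← hqV, hBdef]
      have h2 : 0 ≤ 3 * ((q : ℚ) * (3 * ((q : ℚ) - 1 + g) - (X - 1))) := by positivity
      have h3 := mul_le_mul_of_nonneg_left he h2
      nlinarith
    exact_mod_cast h1
  have hN1 : 1 ≤ N := by
    by_contra hc
    push Not at hc
    have : N * q ≤ 0 := by
      apply mul_nonpos_of_nonpos_of_nonneg (by omega) (by omega)
    omega
  have hN1' : (1 : ℚ) ≤ N := by exact_mod_cast hN1
  by_cases hp122 : 122 ≤ p
  · have hp122' : (122 : ℚ) ≤ p := by exact_mod_cast hp122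
    have h14 : 122 * (p : ℚ) ^ 2 ≤ (p : ℚ) ^ 3 := by
      have h1 := mul_le_mul_of_nonneg_right hp122' (sq_nonneg (p : ℚ))
      have h2 : (p : ℚ) * (p : ℚ) ^ 2 = (p : ℚ) ^ 3 := by ring
      linarith
    have hBl : B < 1 / 3 := by
      by_contra hc
      push Not at hc
      have h1 : 1 / 3 * ((p : ℚ) ^ 3 + p) ≤ B * ((p : ℚ) ^ 3 + p) :=
        mul_le_mul_of_nonneg_right hc (by positivity)
      linarith [sq_nonneg (p : ℚ)]
    have hq45 : 2 * (q : ℚ) < 9 * xi := by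
      have h1 : (q : ℚ) * B ≤ q * (1 / 3) := mul_le_mul_of_nonneg_left hBl.le hq0.le
      have h2 : (q : ℚ) ≤ N * q := le_mul_of_one_le_left hq0.le hN1'
      have h3 : (q : ℚ) * B < q * (1 / 3) := mul_lt_mul_of_pos_left hBl hq0
      linarith
    have hJ : (1 : ℚ) ≤ q * B := by
      have h1 : ((1 : ℤ) : ℚ) ≤ ((N * q - 3 * xi : ℤ) : ℚ) := by exact_mod_cast hJ1
      push_cast at h1
      rw [hNq] at h1
      linarith
    have hXX : ((X : ℚ) - 1) * (X + 2) ≤ 9 * ((p - 1) * (p - 2)) := by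
      have h1 : (X : ℚ) + 2 ≤ 3 * p - 3 := by linarith
      have h6 : ((X : ℚ) - 1) * (X + 2) ≤ (3 * p - 6) * (3 * p - 3) := by
        apply mul_le_mul <;> linarith
      linarith
    have h7 : q * B * ((p : ℚ) ^ 3 + p) * xi < q * (27 * ((p - 1) * (p - 2))) := by
      have h8 : B * ((p : ℚ) ^ 3 + p) * xi < 27 * ((p - 1) * (p - 2)) := by linarith
      have h9 := mul_lt_mul_of_pos_left h8 hq0
      linarith
    have h10 : (q : ℚ) * (27 * ((p - 1) * (p - 2))) ≤ 9 * xi / 2 * (27 * ((p - 1) * (p - 2))) := by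
      apply mul_le_mul_of_nonneg_right _ _
      · linarith
      · have : (0 : ℚ) ≤ (p - 1) * (p - 2) := mul_nonneg (by linarith) (by linarith)
        linarith
    have h11 : ((p : ℚ) ^ 3 + p) * xi ≤ q * B * ((p : ℚ) ^ 3 + p) * xi := by
      have h0 : 0 ≤ ((p : ℚ) ^ 3 + p) * xi := by
        apply mul_nonneg (by positivity) (by linarith)
      have h1 := mul_le_mul_of_nonneg_right hJ h0
      linarith
    have h12 : ((p : ℚ) ^ 3 + p) * xi < (9 / 2 * (27 * ((p - 1) * (p - 2)))) * xi := by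
      linarith
    have h13 : ((p : ℚ) ^ 3 + p) < 9 / 2 * (27 * ((p - 1) * (p - 2))) :=
      lt_of_mul_lt_mul_right h12 (by linarith)
    linarith [sq_nonneg (p : ℚ)]
  · push Not at hp122
    have hN5 : N ≤ 5 := by
      by_contra hc
      push Not at hc
      have hc' : (6 : ℚ) ≤ N := by
        have : 6 ≤ N := hc
        exact_mod_cast this
      have h1 : 6 * (q : ℚ) ≤ N * q := mul_le_mul_of_nonneg_right hc' hq0.le
      have hBl : B < 1 := by
        by_contra hc2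
        push Not at hc2
        have h1 : 1 * ((p : ℚ) ^ 3 + p) ≤ B * ((p : ℚ) ^ 3 + p) :=
          mul_le_mul_of_nonneg_right hc2 (by positivity)
        have t0 : (0 : ℚ) ≤ (p : ℚ) - 5 := by linarith
        have t2 : (0 : ℚ) ≤ ((p : ℚ) - 5) ^ 2 := by positivity
        have t3 : (0 : ℚ) ≤ ((p : ℚ) - 5) ^ 3 := by positivity
        nlinarith
      have h2 : (q : ℚ) * B < q * 1 := mul_lt_mul_of_pos_left hBl hq0
      nlinarith
    have hk9 : k < 9 := by
      by_contra hk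
      push Not at hk
      have : (2 : ℤ) ^ 9 ≤ 2 ^ k := pow_le_pow_right₀ (by norm_num) hk
      rw [← hXk] at this
      omega
    have hk3 : 3 ≤ k := by
      by_contra hk
      push Not at hk
      have : (2 : ℤ) ^ k ≤ 2 ^ 2 := pow_le_pow_right₀ (by norm_num) (by omega)
      rw [← hXk] at this
      omega
    have hXmem : X ∈ ([8, 16, 32, 64, 128, 256] : List ℤ) := by
      rw [hXk]
      interval_cases k <;> simp
    have hNmem : N ∈ ([1, 2, 3, 4, 5] : List ℤ) := by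
      have : N = 1 ∨ N = 2 ∨ N = 3 ∨ N = 4 ∨ N = 5 := by omega
      rcases this with h | h | h | h | h <;> simp [h]
    have hsmem : s ∈ ([0, 3] : List ℤ) := by
      rcases hs with h | h <;> simp [h]
    obtain ⟨pn, hpn⟩ : ∃ pn : ℕ, (pn : ℤ) = p := ⟨p.toNat, by omega⟩
    have hpmem : pn ∈ List.range 122 := by
      rw [List.mem_range]
      omega
    have htest := d73_test_all X hXmem pn hpmem N hNmem s hsmem
    rw [hpn] at htest
    have hxiv : xi * v = (X - 1) * (X + 2) - N := by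
      rw [hNdef]
      ring
    have hv : ((X - 1) * (X + 2) - N) / (3 * p - X - 2) = v := by
      rw [← hxiv]
      exact Int.mul_ediv_cancel_left v (by omega)
    have hqq : (v + X + 2 - s) / 3 = q := by
      have : v + X + 2 - s = 3 * q := by
        rw [hvdef]
        ring
      rw [this]
      exact Int.mul_ediv_cancel_left q (by norm_num)
    have h3q : 3 * q = v + X + 2 - s := by
      rw [hvdef]
      ring
    unfold d73_test at htest
    simp only [hv, hqq] at htest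
    rw [← hxidef] at htest
    simp only [Bool.not_eq_true', Bool.and_eq_false_iff, decide_eq_false_iff_not] at htest
    rcases htest with (((h | h) | h) | h) | h
    · exact h hxi3
    · exact h hxiv
    · exact h h3q
    · exact h hJ1
    · exact h hJle

end Pool.Agent.Lib.H73D
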