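import Mathlib

namespace Pool.Agent.Lib.H73D

open Finset

theorem d73_zm_odd (p : ℤ) (hp : p % 2 = 1) : (p : ZMod 4) = 1 ∨ (p : ZMod 4) = 3 := by
  have h : p % 4 = 1 ∨ p % 4 = 3 := by omega
  have h2 : (p : ZMod 4) = ((p % 4 : ℤ) : ZMod 4) := (ZMod.intCast_mod p 4).symm
  rcases h with h | h
  · left
    rw [h2, h]
    rfl
  · right
    rw [h2, h]
    rfl

/-- The geometric sum. -/
def gs (p : ℤ) (b : ℕ) : ℤ := ∑ i ∈ range (b + 1), p ^ i

theorem d73_gs_pos (p : ℤ) (hp : 0 < p) (b : ℕ) : 0 < gs p b := by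
  unfold gs
  apply Finset.sum_pos
  · intro i _
    positivity
  · exact ⟨0, by simp⟩

/-- Reduced form of sigma over usigma, modulo 4, for the small exponents. -/
theorem d73_ty_even (p : ℤ) (hp : p % 2 = 1) (b : ℕ) (hb : b = 2 ∨ b = 4 ∨ b = 6) :
    ((gs p b : ℤ) : ZMod 4) ∈ ({1, 3} : Finset (ZMod 4)) ∧ ((p ^ b + 1 : ℤ) : ZMod 4) = 2 := by
  unfold gs
  rcases hb with rfl | rfl | rfl <;> rcases d73_zm_odd p hp with h | h <;>
    simp only [Finset.sum_range_succ, Finset.sum_range_zero] <;> push_cast <;> rw [h] <;> decide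

theorem d73_ty_three (p : ℤ) (hp : p % 2 = 1) :
    ((p ^ 2 + 1 : ℤ) : ZMod 4) = 2 ∧
    ((p ^ 2 - p + 1 : ℤ) : ZMod 4) ∈ ({1, 3} : Finset (ZMod 4)) := by
  rcases d73_zm_odd p hp with h | h <;> push_cast <;> rw [h] <;> decide

theorem d73_ty_five (p : ℤ) (hp : p % 2 = 1) :
    ((p ^ 4 + p ^ 2 + 1 : ℤ) : ZMod 4) ∈ ({1, 3} : Finset (ZMod 4)) ∧
    ((p ^ 4 - p ^ 3 + p ^ 2 - p + 1 : ℤ) : ZMod 4) ∈ ({1, 3} : Finset (ZMod 4)) := by
  rcases d73_zm_odd p hp with h | h <;> push_cast <;> rw [h] <;> decide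

theorem d73_gs3 (p : ℤ) : gs p 3 = (p + 1) * (p ^ 2 + 1) := by
  unfold gs
  simp only [Finset.sum_range_succ, Finset.sum_range_zero]
  ring

theorem d73_gs5 (p : ℤ) : gs p 5 = (p + 1) * (p ^ 4 + p ^ 2 + 1) := by
  unfold gs
  simp only [Finset.sum_range_succ, Finset.sum_range_zero]
  ring

theorem d73_zfin1 : ∀ s ∈ ({1, 3} : Finset (ZMod 4)), ∀ s' ∈ ({1, 3} : Finset (ZMod 4)),
    ∀ t t' : ZMod 4, (0 - 1) * s * s' = (0 + 2) * t * t' → False := by
  decide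

theorem d73_zfin2 : ∀ s ∈ ({1, 3} : Finset (ZMod 4)), ∀ t' ∈ ({1, 3} : Finset (ZMod 4)),
    (0 - 1) * s * 2 = (0 + 2) * 2 * t' → False := by
  decide

theorem d73_zfin2' : ∀ s ∈ ({1, 3} : Finset (ZMod 4)), ∀ t' ∈ ({1, 3} : Finset (ZMod 4)),
    (0 - 1) * 2 * s = (0 + 2) * t' * 2 → False := by
  decide

theorem d73_zfin3 : ∀ s ∈ ({1, 3} : Finset (ZMod 4)), ∀ t' ∈ ({1, 3} : Finset (ZMod 4)),
    (0 - 1) * 2 * 2 = (0 + 2) * s * t' → False := by
  decide

/-- The small pairs of exponents are impossible modulo 4. -/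
theorem d73_par (X p q : ℤ) (b c : ℕ) (hX : (4 : ℤ) ∣ X) (hp : p % 2 = 1) (hq : q % 2 = 1)
    (hp0 : 0 < p) (hq0 : 0 < q)
    (E : (X - 1) * gs p b * gs q c = (X + 2) * (p ^ b + 1) * (q ^ c + 1))
    (hbc : ((b = 2 ∨ b = 3) ∧ (c = 2 ∨ c = 3 ∨ c = 4)) ∨
      (b = 4 ∧ (c = 2 ∨ c = 3 ∨ c = 4 ∨ c = 5 ∨ c = 6))) : False := by
  have hXz : ((X : ℤ) : ZMod 4) = 0 := by
    have := (ZMod.intCast_zmod_eq_zero_iff_dvd X 4).mpr (by exact_mod_cast hX)
    exact this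
  have hX1 : ((X - 1 : ℤ) : ZMod 4) = 0 - 1 := by
    push_cast
    rw [hXz]
  have hX2 : ((X + 2 : ℤ) : ZMod 4) = 0 + 2 := by
    push_cast
    rw [hXz]
  have hp1 : p + 1 ≠ 0 := by omega
  have hq1 : q + 1 ≠ 0 := by omega
  have ee : ∀ b' c' : ℕ, (b' = 2 ∨ b' = 4 ∨ b' = 6) → (c' = 2 ∨ c' = 4 ∨ c' = 6) →
      (X - 1) * gs p b' * gs q c' = (X + 2) * (p ^ b' + 1) * (q ^ c' + 1) → False := by
    intro b' c' hb' hc' h
    have h1 := congrArg (Int.cast : ℤ → ZMod 4) h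
    rw [Int.cast_mul, Int.cast_mul, Int.cast_mul, Int.cast_mul,
      hX1, hX2] at h1
    exact d73_zfin1 _ (d73_ty_even p hp b' hb').1 _ (d73_ty_even q hq c' hc').1 _ _
      h1
  have e3 : ∀ b' : ℕ, (b' = 2 ∨ b' = 4 ∨ b' = 6) →
      (X - 1) * gs p b' * gs q 3 = (X + 2) * (p ^ b' + 1) * (q ^ 3 + 1) → False := by
    intro b' hb' h
    rw [d73_gs3] at h
    have h0 : (X - 1) * gs p b' * (q ^ 2 + 1) = (X + 2) * (p ^ b' + 1) * (q ^ 2 - q + 1) := by
      apply mul_left_cancel₀ hq1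
      linear_combination h
    have h1 := congrArg (Int.cast : ℤ → ZMod 4) h0
    rw [Int.cast_mul, Int.cast_mul, Int.cast_mul, Int.cast_mul,
      hX1, hX2, (d73_ty_even p hp b' hb').2, (d73_ty_three q hq).1] at h1
    exact d73_zfin2 _ (d73_ty_even p hp b' hb').1 _ (d73_ty_three q hq).2 h1
  rcases hbc with ⟨hb, hc⟩ | ⟨hb, hc⟩
  · rcases hb with rfl | rfl
    · rcases hc with rfl | rfl | rfl
      · exact ee 2 2 (by simp) (by simp) E
      · exact e3 2 (by simp) E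
      · exact ee 2 4 (by simp) (by simp) E
    · have e3' : ∀ c' : ℕ, (c' = 2 ∨ c' = 4 ∨ c' = 6) →
          (X - 1) * gs p 3 * gs q c' = (X + 2) * (p ^ 3 + 1) * (q ^ c' + 1) → False := by
        intro c' hc' h
        rw [d73_gs3] at h
        have h0 : (X - 1) * (p ^ 2 + 1) * gs q c' = (X + 2) * (p ^ 2 - p + 1) * (q ^ c' + 1) := by
          apply mul_left_cancel₀ hp1
          linear_combination h
        have h1 := congrArg (Int.cast : ℤ → ZMod 4) h0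
        rw [Int.cast_mul, Int.cast_mul, Int.cast_mul, Int.cast_mul,
          hX1, hX2, (d73_ty_even q hq c' hc').2, (d73_ty_three p hp).1] at h1
        exact d73_zfin2' _ (d73_ty_even q hq c' hc').1 _ (d73_ty_three p hp).2 h1
      rcases hc with rfl | rfl | rfl
      · exact e3' 2 (by simp) E
      · rw [d73_gs3, d73_gs3] at E
        have h0 : (X - 1) * (p ^ 2 + 1) * (q ^ 2 + 1)
            = (X + 2) * (p ^ 2 - p + 1) * (q ^ 2 - q + 1) := by
          apply mul_left_cancel₀ (mul_ne_zero hp1 hq1)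
          linear_combination E
        have h1 := congrArg (Int.cast : ℤ → ZMod 4) h0
        rw [Int.cast_mul, Int.cast_mul, Int.cast_mul, Int.cast_mul,
          hX1, hX2, (d73_ty_three q hq).1, (d73_ty_three p hp).1] at h1
        exact d73_zfin3 _ (d73_ty_three p hp).2 _ (d73_ty_three q hq).2 h1
      · exact e3' 4 (by simp) E
  · subst hb
    rcases hc with rfl | rfl | rfl | rfl | rfl
    · exact ee 4 2 (by simp) (by simp) E
    · exact e3 4 (by simp) E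
    · exact ee 4 4 (by simp) (by simp) E
    · rw [d73_gs5] at E
      have h0 : (X - 1) * gs p 4 * (q ^ 4 + q ^ 2 + 1)
          = (X + 2) * (p ^ 4 + 1) * (q ^ 4 - q ^ 3 + q ^ 2 - q + 1) := by
        apply mul_left_cancel₀ hq1
        linear_combination E
      have h1 := congrArg (Int.cast : ℤ → ZMod 4) h0
      rw [Int.cast_mul, Int.cast_mul, Int.cast_mul, Int.cast_mul,
        hX1, hX2] at h1
      exact d73_zfin1 _ (d73_ty_even p hp 4 (by simp)).1 _ (d73_ty_five q hq).1 _ _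
        h1
    · exact ee 4 6 (by simp) (by simp) E

end Pool.Agent.Lib.H73D
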