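import Mathlib

namespace Pool.Agent.Lib.H73D

open Finset

/-- Sum of all positive divisors of n. -/
def sig (n : ℕ) : ℕ := ∑ d ∈ n.divisors, d

/-- Sum of the unitary divisors of n, the divisors d with gcd (d, n / d) = 1. -/
def usig (n : ℕ) : ℕ := ∑ d ∈ n.divisors with Nat.Coprime d (n / d), d

theorem d73_sig_mul {m n : ℕ} (h : m.Coprime n) : sig (m * n) = sig m * sig n :=
  h.sum_divisors_mul

theorem d73_sig_one : sig 1 = 1 := by simp [sig]

theorem d73_usig_one : usig 1 = 1 := by simp [usig, Finset.filter_singleton]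

theorem d73_usig_mul {m n : ℕ} (h : m.Coprime n) : usig (m * n) = usig m * usig n := by
  rcases Nat.eq_zero_or_pos m with rfl | hm
  · simp [usig]
  rcases Nat.eq_zero_or_pos n with rfl | hn
  · simp [usig]
  unfold usig
  rw [Finset.sum_mul_sum, ← Finset.sum_product']
  have himg : (m * n).divisors.filter (fun d => Nat.Coprime d (m * n / d))
      = ((m.divisors.filter (fun d => Nat.Coprime d (m / d))) ×ˢ
        (n.divisors.filter (fun d => Nat.Coprime d (n / d)))).image (fun x => x.1 * x.2) := by
    ext x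
    simp only [Finset.mem_filter, Nat.mem_divisors, Finset.mem_image, Finset.mem_product,
      Prod.exists]
    constructor
    · rintro ⟨⟨hx, _⟩, hc⟩
      obtain ⟨d, e, hd, he, rfl⟩ := (Nat.dvd_mul).1 hx
      obtain ⟨m', rfl⟩ := hd
      obtain ⟨n', rfl⟩ := he
      have hd0 : 0 < d := Nat.pos_of_mul_pos_right hm |> fun _ => Nat.pos_of_ne_zero (by
        rintro rfl
        simp at hm)
      have he0 : 0 < e := Nat.pos_of_ne_zero (by
        rintro rfl
        simp at hn)
      have hq : d * m' * (e * n') / (d * e) = m' * n' := by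
        rw [show d * m' * (e * n') = (d * e) * (m' * n') by ring]
        exact Nat.mul_div_cancel_left _ (Nat.mul_pos hd0 he0)
      rw [hq] at hc
      refine ⟨d, e, ⟨⟨⟨Dvd.intro _ rfl, hm.ne'⟩, ?_⟩, ⟨Dvd.intro _ rfl, hn.ne'⟩, ?_⟩, rfl⟩
      · rw [Nat.mul_div_cancel_left _ hd0]
        exact Nat.Coprime.coprime_dvd_left (Dvd.intro _ rfl)
          (Nat.Coprime.coprime_dvd_right (Dvd.intro _ rfl) hc)
      · rw [Nat.mul_div_cancel_left _ he0]
        exact Nat.Coprime.coprime_dvd_left (Dvd.intro_left _ rfl)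
          (Nat.Coprime.coprime_dvd_right (Dvd.intro_left _ rfl) hc)
    · rintro ⟨d, e, ⟨⟨⟨hd, _⟩, hc1⟩, ⟨he, _⟩, hc2⟩, rfl⟩
      obtain ⟨m', rfl⟩ := hd
      obtain ⟨n', rfl⟩ := he
      have hd0 : 0 < d := Nat.pos_of_ne_zero (by
        rintro rfl
        simp at hm)
      have he0 : 0 < e := Nat.pos_of_ne_zero (by
        rintro rfl
        simp at hn)
      rw [Nat.mul_div_cancel_left _ hd0] at hc1
      rw [Nat.mul_div_cancel_left _ he0] at hc2
      have hq : d * m' * (e * n') / (d * e) = m' * n' := by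
        rw [show d * m' * (e * n') = (d * e) * (m' * n') by ring]
        exact Nat.mul_div_cancel_left _ (Nat.mul_pos hd0 he0)
      refine ⟨⟨Nat.mul_dvd_mul (Dvd.intro _ rfl) (Dvd.intro _ rfl),
        (Nat.mul_pos hm hn).ne'⟩, ?_⟩
      rw [hq]
      have hdn' : Nat.Coprime d n' := Nat.Coprime.coprime_dvd_left (Dvd.intro _ rfl)
          (Nat.Coprime.coprime_dvd_right (Dvd.intro_left _ rfl) h)
      have hem' : Nat.Coprime e m' := (Nat.Coprime.coprime_dvd_left (Dvd.intro_left _ rfl)
          (Nat.Coprime.coprime_dvd_right (Dvd.intro _ rfl) h)).symm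
      exact Nat.Coprime.mul_left (Nat.Coprime.mul_right hc1 hdn')
        (Nat.Coprime.mul_right hem' hc2)
  rw [himg, Finset.sum_image]
  intro x hx y hy hxy
  apply h.mul_injOn_divisors _ _ hxy
  · simp only [Finset.coe_product, Set.mem_prod, Finset.mem_coe, Finset.mem_filter] at hx ⊢
    exact ⟨hx.1.1, hx.2.1⟩
  · simp only [Finset.coe_product, Set.mem_prod, Finset.mem_coe, Finset.mem_filter] at hy ⊢
    exact ⟨hy.1.1, hy.2.1⟩

theorem d73_sig_pow (p k : ℕ) (hp : p.Prime) : sig (p ^ k) = ∑ i ∈ range (k + 1), p ^ i := by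
  unfold sig
  exact Nat.sum_divisors_prime_pow hp

theorem d73_usig_pow (p k : ℕ) (hp : p.Prime) (hk : 1 ≤ k) : usig (p ^ k) = p ^ k + 1 := by
  unfold usig
  have h : (p ^ k).divisors.filter (fun d => Nat.Coprime d (p ^ k / d)) = {p ^ k, 1} := by
    ext x
    simp only [Finset.mem_filter, Nat.mem_divisors_prime_pow hp, Finset.mem_insert,
      Finset.mem_singleton]
    constructor
    · rintro ⟨⟨i, hi, rfl⟩, hc⟩
      rcases Nat.eq_zero_or_pos i with rfl | hi0
      · right
        simp
      · left
        rw [Nat.pow_div hi hp.pos] at hc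
        by_contra hne
        have hik : i ≠ k := fun h => hne (by rw [h])
        have h1 : p ∣ p ^ i := dvd_pow_self p hi0.ne'
        have h2 : p ∣ p ^ (k - i) := dvd_pow_self p (by omega)
        exact Nat.not_coprime_of_dvd_of_dvd hp.one_lt h1 h2 hc
    · rintro (rfl | rfl)
      · refine ⟨⟨k, le_rfl, rfl⟩, ?_⟩
        rw [Nat.div_self (pow_pos hp.pos k)]
        exact Nat.coprime_one_right _
      · exact ⟨⟨0, Nat.zero_le _, by simp⟩, Nat.coprime_one_left _⟩
  rw [h, Finset.sum_pair]
  have : 1 < p ^ k := Nat.one_lt_pow (by omega) hp.one_lt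
  omega

/-- The set A of the problem. -/
def InA (n : ℕ) : Prop := 1 ≤ n ∧ sig n = 2 * usig n

/-- Primitive elements of A: no proper divisor lies in A. -/
def Primitive (n : ℕ) : Prop := InA n ∧ ∀ d : ℕ, d ∣ n → d < n → ¬ InA d

/-- The ratio sigma / usigma at a prime power. -/
def F (p a : ℕ) : ℚ := (∑ i ∈ range (a + 1), (p : ℚ) ^ i) / ((p : ℚ) ^ a + 1)

theorem d73_F_one (p : ℕ) : F p 1 = 1 := by
  unfold F
  rw [Finset.sum_range_succ, Finset.sum_range_succ, Finset.sum_range_zero]
  have : (0 : ℚ) < (p : ℚ) ^ 1 + 1 := by positivity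
  rw [div_eq_one_iff_eq this.ne']
  ring

/-- The product form of the equation. -/
theorem d73_prod (n : ℕ) (h : InA n) :
    ∏ p ∈ n.primeFactors, F p (n.factorization p) = 2 := by
  have hn0 : n ≠ 0 := by
    have := h.1
    omega
  have hs := Nat.multiplicative_factorization sig (fun x y hxy => d73_sig_mul hxy)
    d73_sig_one hn0
  have hu := Nat.multiplicative_factorization usig (fun x y hxy => d73_usig_mul hxy)
    d73_usig_one hn0
  rw [Finsupp.prod, Nat.support_factorization] at hs hu
  have hge : ∀ p ∈ n.primeFactors, 1 ≤ n.factorization p := by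
    intro p hp
    have h1 : n.factorization p ≠ 0 := by
      rw [← Finsupp.mem_support_iff, Nat.support_factorization]
      exact hp
    omega
  have hF : ∀ p ∈ n.primeFactors, F p (n.factorization p)
      = (sig (p ^ n.factorization p) : ℚ) / (usig (p ^ n.factorization p) : ℚ) := by
    intro p hp
    have hpp := Nat.prime_of_mem_primeFactors hp
    rw [d73_sig_pow p _ hpp, d73_usig_pow p _ hpp (hge p hp)]
    unfold F
    push_cast
    rfl
  rw [Finset.prod_congr rfl hF, Finset.prod_div_distrib, ← Nat.cast_prod, ← Nat.cast_prod,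
    ← hs, ← hu, h.2]
  have hu0 : (usig n : ℚ) ≠ 0 := by
    have : 0 < usig n := by
      rw [hu]
      apply Finset.prod_pos
      intro p hp
      have hpp := Nat.prime_of_mem_primeFactors hp
      rw [d73_usig_pow p _ hpp (hge p hp)]
      omega
    exact_mod_cast this.ne'
  push_cast
  field_simp

/-- Only the primes whose square divides n matter. -/
theorem d73_prod2 (n : ℕ) (h : InA n) :
    ∏ p ∈ n.primeFactors with p ^ 2 ∣ n, F p (n.factorization p) = 2 := by
  have hn0 : n ≠ 0 := by
    have := h.1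
    omega
  rw [← d73_prod n h]
  apply Finset.prod_subset (Finset.filter_subset _ _)
  intro p hp hp2
  have hpp := Nat.prime_of_mem_primeFactors hp
  have h1 : n.factorization p ≠ 0 := by
    rw [← Finsupp.mem_support_iff, Nat.support_factorization]
    exact hp
  have h2 : ¬ 2 ≤ n.factorization p := by
    intro h2
    apply hp2
    rw [Finset.mem_filter]
    exact ⟨hp, (hpp.pow_dvd_iff_le_factorization hn0).2 h2⟩
  have h3 : n.factorization p = 1 := by omega
  rw [h3, d73_F_one]

end Pool.Agent.Lib.H73D
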