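import Pool.Agent.Lib.H73D.Core2
import Pool.Agent.Lib.H73D.Par
import Pool.Agent.Lib.H73D.Red

namespace Pool.Agent.Lib.H73D

open Finset

theorem d73_geom (p a : ℕ) : ((p : ℚ) - 1) * ∑ i ∈ range (a + 1), (p : ℚ) ^ i
    = (p : ℚ) ^ (a + 1) - 1 := by
  have h := geom_sum_mul (p : ℚ) (a + 1)
  linarith

theorem d73_F_pos (p a : ℕ) (hp : 2 ≤ p) : 0 < F p a := by
  unfold F
  have hp0 : (0 : ℚ) < p := by
    have : 0 < p := by omega
    exact_mod_cast this
  apply div_pos _ (by positivity)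
  apply Finset.sum_pos
  · intro i _
    positivity
  · exact ⟨0, by simp⟩

/-- Upper bound. -/
theorem d73_F_lt (p m a : ℕ) (hm : 2 ≤ m) (hp : m ≤ p) : F p a < m / (m - 1) := by
  have hm' : (2 : ℚ) ≤ m := by exact_mod_cast hm
  have hp' : (m : ℚ) ≤ p := by exact_mod_cast hp
  have h1 : F p a < p / (p - 1) := by
    unfold F
    rw [div_lt_div_iff₀ (by positivity) (by linarith), mul_comm, d73_geom, pow_succ]
    nlinarith [pow_pos (show (0 : ℚ) < (p : ℚ) by linarith) a]
  have h2 : (p : ℚ) / (p - 1) ≤ m / (m - 1) := by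
    rw [div_le_div_iff₀ (by linarith) (by linarith)]
    linarith
  linarith

/-- Monotonicity in the exponent. -/
theorem d73_F_mono (p k a : ℕ) (hp : 2 ≤ p) (h : k ≤ a) : F p k ≤ F p a := by
  have hp' : (2 : ℚ) ≤ p := by exact_mod_cast hp
  have hk : (p : ℚ) ^ k ≤ (p : ℚ) ^ a := pow_le_pow_right₀ (by linarith) h
  unfold F
  rw [div_le_div_iff₀ (by positivity) (by positivity)]
  have g1 := d73_geom p k
  have g2 := d73_geom p a
  have h3 : ((p : ℚ) - 1) * ((∑ i ∈ range (k + 1), (p : ℚ) ^ i) * ((p : ℚ) ^ a + 1))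
      ≤ ((p : ℚ) - 1) * ((∑ i ∈ range (a + 1), (p : ℚ) ^ i) * ((p : ℚ) ^ k + 1)) := by
    rw [← mul_assoc, ← mul_assoc, g1, g2, pow_succ, pow_succ]
    nlinarith
  exact le_of_mul_le_mul_left h3 (by linarith)

theorem d73_up3 {x y z u v w : ℚ} (hx : 0 < x) (hy : 0 < y) (hz : 0 < z) (h1 : x ≤ u)
    (h2 : y ≤ v) (h3 : z ≤ w) (h : u * v * w < 2) : x * y * z ≠ 2 := by
  have h4 : x * y ≤ u * v := mul_le_mul h1 h2 hy.le (by linarith)
  have h5 : x * y * z ≤ u * v * w :=
    mul_le_mul h4 h3 hz.le (le_trans (mul_pos hx hy).le h4)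
  intro h6
  linarith

theorem d73_lo3 {x y z u v w : ℚ} (hu : 0 < u) (hv : 0 < v) (hw : 0 < w) (h1 : u ≤ x)
    (h2 : v ≤ y) (h3 : w ≤ z) (h : 2 < u * v * w) : x * y * z ≠ 2 := by
  have h4 : u * v ≤ x * y := mul_le_mul h1 h2 hv.le (by linarith)
  have h5 : u * v * w ≤ x * y * z :=
    mul_le_mul h4 h3 hw.le (le_trans (mul_pos hu hv).le h4)
  intro h6
  linarith

theorem d73_F32 : F 3 2 = 13 / 10 := by norm_num [F, Finset.sum_range_succ]
theorem d73_F33 : F 3 3 = 10 / 7 := by norm_num [F, Finset.sum_range_succ]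
theorem d73_F34 : F 3 4 = 121 / 82 := by norm_num [F, Finset.sum_range_succ]
theorem d73_F35 : F 3 5 = 91 / 61 := by norm_num [F, Finset.sum_range_succ]
theorem d73_F36 : F 3 6 = 1093 / 730 := by norm_num [F, Finset.sum_range_succ]
theorem d73_F52 : F 5 2 = 31 / 26 := by norm_num [F, Finset.sum_range_succ]
theorem d73_F53 : F 5 3 = 26 / 21 := by norm_num [F, Finset.sum_range_succ]
theorem d73_F54 : F 5 4 = 781 / 626 := by norm_num [F, Finset.sum_range_succ]
theorem d73_F72 : F 7 2 = 57 / 50 := by norm_num [F, Finset.sum_range_succ]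
theorem d73_F112 : F 11 2 = 133 / 122 := by norm_num [F, Finset.sum_range_succ]
theorem d73_F113 : F 11 3 = 122 / 111 := by norm_num [F, Finset.sum_range_succ]
theorem d73_F132 : F 13 2 = 183 / 170 := by norm_num [F, Finset.sum_range_succ]
theorem d73_F133 : F 13 3 = 170 / 157 := by norm_num [F, Finset.sum_range_succ]
theorem d73_F134 : F 13 4 = 30941 / 28562 := by norm_num [F, Finset.sum_range_succ]

theorem d73_F3_lt (a : ℕ) : F 3 a ≤ 3 / 2 := by
  have := d73_F_lt 3 3 a (by norm_num) le_rfl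
  norm_num at this
  linarith

theorem d73_F5_lt (a : ℕ) : F 5 a ≤ 5 / 4 := by
  have := d73_F_lt 5 5 a (by norm_num) le_rfl
  norm_num at this
  linarith

theorem d73_F7_lt (a : ℕ) : F 7 a ≤ 7 / 6 := by
  have := d73_F_lt 7 7 a (by norm_num) le_rfl
  norm_num at this
  linarith

theorem d73_F11_lt (a : ℕ) : F 11 a ≤ 11 / 10 := by
  have := d73_F_lt 11 11 a (by norm_num) le_rfl
  norm_num at this
  linarith

theorem d73_F13_lt (a : ℕ) : F 13 a ≤ 13 / 12 := by
  have := d73_F_lt 13 13 a (by norm_num) le_rfl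
  norm_num at this
  linarith

/-- The three primes 3, 5, 7. -/
theorem d73_odd7 (a b c : ℕ) (ha : 2 ≤ a) (hb : 2 ≤ b) (hc : 2 ≤ c) :
    F 3 a * F 5 b * F 7 c ≠ 2 := by
  have pa := d73_F_pos 3 a (by norm_num)
  have pb := d73_F_pos 5 b (by norm_num)
  have pc := d73_F_pos 7 c (by norm_num)
  have h : a = 2 ∨ a = 3 ∨ 4 ≤ a := by omega
  rcases h with rfl | rfl | h
  · exact d73_up3 pa pb pc d73_F32.le (d73_F5_lt b) (d73_F7_lt c) (by norm_num)
  · have h2 : b = 2 ∨ 3 ≤ b := by omega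
    rcases h2 with rfl | h2
    · exact d73_up3 pa pb pc d73_F33.le d73_F52.le (d73_F7_lt c) (by norm_num)
    · exact d73_lo3 (u := 10 / 7) (v := 26 / 21) (w := 57 / 50) (by norm_num) (by norm_num)
        (by norm_num) d73_F33.ge (d73_F53.ge.trans (d73_F_mono 5 3 b (by norm_num) h2))
        (d73_F72.ge.trans (d73_F_mono 7 2 c (by norm_num) hc)) (by norm_num)
  · exact d73_lo3 (u := 121 / 82) (v := 31 / 26) (w := 57 / 50) (by norm_num) (by norm_num)
      (by norm_num) (d73_F34.ge.trans (d73_F_mono 3 4 a (by norm_num) h))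
      (d73_F52.ge.trans (d73_F_mono 5 2 b (by norm_num) hb))
      (d73_F72.ge.trans (d73_F_mono 7 2 c (by norm_num) hc)) (by norm_num)

/-- The three primes 3, 5, 11. -/
theorem d73_odd11 (a b c : ℕ) (ha : 2 ≤ a) (hb : 2 ≤ b) (hc : 2 ≤ c) :
    F 3 a * F 5 b * F 11 c ≠ 2 := by
  have pa := d73_F_pos 3 a (by norm_num)
  have pb := d73_F_pos 5 b (by norm_num)
  have pc := d73_F_pos 11 c (by norm_num)
  have h : a = 2 ∨ a = 3 ∨ a = 4 ∨ 5 ≤ a := by omega
  rcases h with rfl | rfl | rfl | h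
  · exact d73_up3 pa pb pc d73_F32.le (d73_F5_lt b) (d73_F11_lt c) (by norm_num)
  · exact d73_up3 pa pb pc d73_F33.le (d73_F5_lt b) (d73_F11_lt c) (by norm_num)
  · have h2 : b = 2 ∨ b = 3 ∨ 4 ≤ b := by omega
    rcases h2 with rfl | rfl | h2
    · exact d73_up3 pa pb pc d73_F34.le d73_F52.le (d73_F11_lt c) (by norm_num)
    · have h3 : c = 2 ∨ 3 ≤ c := by omega
      rcases h3 with rfl | h3
      · exact d73_up3 pa pb pc d73_F34.le d73_F53.le d73_F112.le (by norm_num)
      · exact d73_lo3 (u := 121 / 82) (v := 26 / 21) (w := 122 / 111) (by norm_num) (by norm_num)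
          (by norm_num) d73_F34.ge d73_F53.ge
          (d73_F113.ge.trans (d73_F_mono 11 3 c (by norm_num) h3)) (by norm_num)
    · exact d73_lo3 (u := 121 / 82) (v := 781 / 626) (w := 133 / 122) (by norm_num) (by norm_num)
        (by norm_num) d73_F34.ge (d73_F54.ge.trans (d73_F_mono 5 4 b (by norm_num) h2))
        (d73_F112.ge.trans (d73_F_mono 11 2 c (by norm_num) hc)) (by norm_num)
  · have h2 : b = 2 ∨ 3 ≤ b := by omega
    rcases h2 with rfl | h2
    · exact d73_up3 pa pb pc (d73_F3_lt a) d73_F52.le (d73_F11_lt c) (by norm_num)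
    · exact d73_lo3 (u := 91 / 61) (v := 26 / 21) (w := 133 / 122) (by norm_num) (by norm_num)
        (by norm_num) (d73_F35.ge.trans (d73_F_mono 3 5 a (by norm_num) h))
        (d73_F53.ge.trans (d73_F_mono 5 3 b (by norm_num) h2))
        (d73_F112.ge.trans (d73_F_mono 11 2 c (by norm_num) hc)) (by norm_num)

/-- The three primes 3, 5, 13. -/
theorem d73_odd13 (a b c : ℕ) (ha : 2 ≤ a) (hb : 2 ≤ b) (hc : 2 ≤ c) :
    F 3 a * F 5 b * F 13 c ≠ 2 := by
  have pa := d73_F_pos 3 a (by norm_num)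
  have pb := d73_F_pos 5 b (by norm_num)
  have pc := d73_F_pos 13 c (by norm_num)
  have h : a = 2 ∨ a = 3 ∨ a = 4 ∨ a = 5 ∨ 6 ≤ a := by omega
  rcases h with rfl | rfl | rfl | rfl | h
  · exact d73_up3 pa pb pc d73_F32.le (d73_F5_lt b) (d73_F13_lt c) (by norm_num)
  · exact d73_up3 pa pb pc d73_F33.le (d73_F5_lt b) (d73_F13_lt c) (by norm_num)
  · exact d73_up3 pa pb pc d73_F34.le (d73_F5_lt b) (d73_F13_lt c) (by norm_num)
  · have h2 : b = 2 ∨ b = 3 ∨ 4 ≤ b := by omega
    rcases h2 with rfl | rfl | h2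
    · exact d73_up3 pa pb pc (d73_F3_lt 5) d73_F52.le (d73_F13_lt c) (by norm_num)
    · have h3 : c = 2 ∨ c = 3 ∨ 4 ≤ c := by omega
      rcases h3 with rfl | rfl | h3
      · exact d73_up3 pa pb pc d73_F35.le d73_F53.le d73_F132.le (by norm_num)
      · exact d73_up3 pa pb pc d73_F35.le d73_F53.le d73_F133.le (by norm_num)
      · exact d73_lo3 (u := 91 / 61) (v := 26 / 21) (w := 30941 / 28562) (by norm_num)
          (by norm_num) (by norm_num) d73_F35.ge d73_F53.ge
          (d73_F134.ge.trans (d73_F_mono 13 4 c (by norm_num) h3)) (by norm_num)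
    · exact d73_lo3 (u := 91 / 61) (v := 781 / 626) (w := 183 / 170) (by norm_num) (by norm_num)
        (by norm_num) d73_F35.ge (d73_F54.ge.trans (d73_F_mono 5 4 b (by norm_num) h2))
        (d73_F132.ge.trans (d73_F_mono 13 2 c (by norm_num) hc)) (by norm_num)
  · have h2 : b = 2 ∨ b = 3 ∨ 4 ≤ b := by omega
    rcases h2 with rfl | rfl | h2
    · exact d73_up3 pa pb pc (d73_F3_lt a) d73_F52.le (d73_F13_lt c) (by norm_num)
    · have h3 : c = 2 ∨ 3 ≤ c := by omega
      rcases h3 with rfl | h3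
      · exact d73_up3 pa pb pc (d73_F3_lt a) d73_F53.le d73_F132.le (by norm_num)
      · exact d73_lo3 (u := 1093 / 730) (v := 26 / 21) (w := 170 / 157) (by norm_num)
          (by norm_num) (by norm_num) (d73_F36.ge.trans (d73_F_mono 3 6 a (by norm_num) h))
          d73_F53.ge (d73_F133.ge.trans (d73_F_mono 13 3 c (by norm_num) h3)) (by norm_num)
    · exact d73_lo3 (u := 1093 / 730) (v := 781 / 626) (w := 183 / 170) (by norm_num)
        (by norm_num) (by norm_num) (d73_F36.ge.trans (d73_F_mono 3 6 a (by norm_num) h))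
        (d73_F54.ge.trans (d73_F_mono 5 4 b (by norm_num) h2))
        (d73_F132.ge.trans (d73_F_mono 13 2 c (by norm_num) hc)) (by norm_num)

theorem d73_mul_lt {x y u v : ℚ} (hy : 0 < y) (hu : 0 < u) (h1 : x < u) (h2 : y < v) :
    x * y < u * v := by
  calc x * y < u * y := mul_lt_mul_of_pos_right h1 hy
    _ < u * v := mul_lt_mul_of_pos_left h2 hu

/-- Three odd primes. -/
theorem d73_odd (p q r a b c : ℕ) (hp : p.Prime) (hq : q.Prime) (hr : r.Prime) (hpq : p < q)
    (hqr : q < r) (hp3 : 3 ≤ p) (ha : 2 ≤ a) (hb : 2 ≤ b) (hc : 2 ≤ c) :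
    F p a * F q b * F r c ≠ 2 := by
  have pa := d73_F_pos p a hp.two_le
  have pb := d73_F_pos q b hq.two_le
  have pc := d73_F_pos r c hr.two_le
  have key : ∀ k l m : ℕ, 2 ≤ k → 2 ≤ l → 2 ≤ m → k ≤ p → l ≤ q → m ≤ r →
      ((k : ℚ) / (k - 1)) * (l / (l - 1)) * (m / (m - 1)) ≤ 2 → F p a * F q b * F r c ≠ 2 := by
    intro k l m hk hl hm h1 h2 h3 h4
    have e1 := d73_F_lt p k a hk h1
    have e2 := d73_F_lt q l b hl h2
    have e3 := d73_F_lt r m c hm h3
    have e4 : F p a * F q b < (k : ℚ) / (k - 1) * (l / (l - 1)) :=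
      d73_mul_lt pb (lt_trans pa e1) e1 e2
    have e5 := d73_mul_lt pc (lt_trans (mul_pos pa pb) e4) e4 e3
    intro h6
    linarith
  by_cases hp5 : 5 ≤ p
  · exact key 5 6 7 (by norm_num) (by norm_num) (by norm_num) hp5 (by omega) (by omega)
      (by norm_num)
  have hp34 : p = 3 ∨ p = 4 := by omega
  rcases hp34 with rfl | rfl
  swap
  · exact absurd hp (by norm_num)
  by_cases hq7 : 7 ≤ q
  · exact key 3 7 8 (by norm_num) (by norm_num) (by norm_num) le_rfl hq7 (by omega) (by norm_num)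
  have hq456 : q = 4 ∨ q = 5 ∨ q = 6 := by omega
  rcases hq456 with rfl | rfl | rfl
  · exact absurd hq (by norm_num)
  swap
  · exact absurd hq (by norm_num)
  by_cases hr16 : 16 ≤ r
  · exact key 3 5 16 (by norm_num) (by norm_num) (by norm_num) le_rfl le_rfl hr16 (by norm_num)
  push Not at hr16
  interval_cases r
  · exact absurd hr (by norm_num)
  · exact d73_odd7 a b c ha hb hc
  · exact absurd hr (by norm_num)
  · exact absurd hr (by norm_num)
  · exact absurd hr (by norm_num)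
  · exact d73_odd11 a b c ha hb hc
  · exact absurd hr (by norm_num)
  · exact d73_odd13 a b c ha hb hc
  · exact absurd hr (by norm_num)
  · exact absurd hr (by norm_num)

end Pool.Agent.Lib.H73D
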