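import Pool.Agent.Lib.H73D.Fin

namespace Pool.Agent.Lib.H73D

open Finset

/-- The deviation e in F = 1 + 1 / (p - 1 + e). -/
def ee (p b : ℕ) : ℚ := ((p : ℚ) ^ 2 - 1) / ((p : ℚ) ^ b - p)

theorem d73_den (p b : ℕ) (hp : 2 ≤ p) (hb : 2 ≤ b) : 0 < (p : ℚ) ^ b - p := by
  have hp' : (2 : ℚ) ≤ p := by exact_mod_cast hp
  have h : (p : ℚ) ^ 2 ≤ (p : ℚ) ^ b := pow_le_pow_right₀ (by linarith) hb
  nlinarith

theorem d73_ee_pos (p b : ℕ) (hp : 2 ≤ p) (hb : 2 ≤ b) : 0 < ee p b := by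
  have hp' : (2 : ℚ) ≤ p := by exact_mod_cast hp
  unfold ee
  exact div_pos (by nlinarith) (d73_den p b hp hb)

/-- The relation between F and the deviation. -/
theorem d73_F_ee (p b : ℕ) (hp : 2 ≤ p) (hb : 2 ≤ b) :
    F p b * ((p : ℚ) - 1 + ee p b) = p + ee p b := by
  have hp' : (2 : ℚ) ≤ p := by exact_mod_cast hp
  have hd := d73_den p b hp hb
  have hg := d73_geom p b
  have hF : F p b * ((p : ℚ) ^ b + 1) = ∑ i ∈ range (b + 1), (p : ℚ) ^ i := by
    unfold F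
    field_simp
  have he : ee p b * ((p : ℚ) ^ b - p) = (p : ℚ) ^ 2 - 1 := by
    unfold ee
    field_simp
  rw [← hF, pow_succ] at hg
  set y := (p : ℚ) ^ b with hy
  have hy0 : 0 < y := by positivity
  -- multiply the claim by (y - p) (p - 1) (y + 1)
  have h1 : (((p : ℚ) - 1) * (y + 1) * (y - p)) ≠ 0 := by
    have : 0 < ((p : ℚ) - 1) * (y + 1) * (y - p) := by
      apply mul_pos (mul_pos (by linarith) (by linarith)) hd
    exact this.ne'
  apply mul_left_cancel₀ h1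
  linear_combination (((p : ℚ) - 1) * (y - p) + ((p : ℚ) ^ 2 - 1)) * hg
    + (((p : ℚ) - 1) * (F p b * (y + 1)) - ((p : ℚ) - 1) * (y + 1)) * he

/-- For exponents at least k, e is at most its value at k. -/
theorem d73_ee_le (p k b : ℕ) (hp : 2 ≤ p) (hk : 2 ≤ k) (hb : k ≤ b) :
    ee p b * ((p : ℚ) ^ k - p) ≤ (p : ℚ) ^ 2 - 1 := by
  have hp' : (2 : ℚ) ≤ p := by exact_mod_cast hp
  have h : (p : ℚ) ^ k ≤ (p : ℚ) ^ b := pow_le_pow_right₀ (by linarith) hb
  have he : ee p b * ((p : ℚ) ^ b - p) = (p : ℚ) ^ 2 - 1 := by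
    have := d73_den p b hp (by omega)
    unfold ee
    field_simp
  have hpos := d73_ee_pos p b hp (by omega)
  rw [← he]
  exact mul_le_mul_of_nonneg_left (by linarith) hpos.le

theorem d73_ee_eq (p b : ℕ) (hp : 2 ≤ p) (hb : 2 ≤ b) :
    ee p b * ((p : ℚ) ^ b - p) = (p : ℚ) ^ 2 - 1 := by
  have := d73_den p b hp hb
  unfold ee
  field_simp

theorem d73_e2 (p : ℕ) (hp : 2 ≤ p) : (p : ℚ) * ee p 2 = p + 1 := by
  have hp' : (2 : ℚ) ≤ p := by exact_mod_cast hp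
  have h := d73_ee_eq p 2 hp le_rfl
  have h1 : ((p : ℚ) - 1) ≠ 0 := by
    intro h0
    linarith
  apply mul_left_cancel₀ h1
  linear_combination h

theorem d73_e3 (p : ℕ) (hp : 2 ≤ p) : (p : ℚ) * ee p 3 = 1 := by
  have hp' : (2 : ℚ) ≤ p := by exact_mod_cast hp
  have h := d73_ee_eq p 3 hp (by norm_num)
  have h1 : ((p : ℚ) ^ 2 - 1) ≠ 0 := by
    intro h0
    nlinarith
  apply mul_left_cancel₀ h1
  linear_combination h

theorem d73_e4 (p : ℕ) (hp : 2 ≤ p) : ((p : ℚ) * (p ^ 2 + p + 1)) * ee p 4 = p + 1 := by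
  have hp' : (2 : ℚ) ≤ p := by exact_mod_cast hp
  have h := d73_ee_eq p 4 hp (by norm_num)
  have h1 : ((p : ℚ) - 1) ≠ 0 := by
    intro h0
    linarith
  apply mul_left_cancel₀ h1
  linear_combination h

theorem d73_e4le (q c : ℕ) (hq : 2 ≤ q) (hc : 4 ≤ c) : ee q c * (q : ℚ) ^ 2 ≤ 1 := by
  have hq' : (2 : ℚ) ≤ q := by exact_mod_cast hq
  have h := d73_ee_le q 4 c hq (by norm_num) hc
  have hpos := d73_ee_pos q c hq (by omega)
  -- e q (q^2 + q + 1) ≤ q + 1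
  have h1 : ee q c * ((q : ℚ) * (q ^ 2 + q + 1)) ≤ q + 1 := by
    apply le_of_mul_le_mul_left _ (show (0 : ℚ) < (q : ℚ) - 1 by linarith)
    linarith
  have h2 : ee q c * (q : ℚ) ^ 2 * (q + 1) ≤ 1 * (q + 1) := by nlinarith
  exact le_of_mul_le_mul_right h2 (by linarith)

theorem d73_e5le (q c : ℕ) (hq : 2 ≤ q) (hc : 5 ≤ c) : ee q c * ((q : ℚ) ^ 3 + q) ≤ 1 := by
  have hq' : (2 : ℚ) ≤ q := by exact_mod_cast hq
  have h := d73_ee_le q 5 c hq (by norm_num) hc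
  have h0 : (0 : ℚ) < (q : ℚ) ^ 2 - 1 := by nlinarith
  apply le_of_mul_le_mul_left _ h0
  linarith

theorem d73_e7le (q c : ℕ) (hq : 2 ≤ q) (hc : 7 ≤ c) :
    ee q c * ((q : ℚ) ^ 5 + q ^ 3 + q) ≤ 1 := by
  have hq' : (2 : ℚ) ≤ q := by exact_mod_cast hq
  have h := d73_ee_le q 7 c hq (by norm_num) hc
  have h0 : (0 : ℚ) < (q : ℚ) ^ 2 - 1 := by nlinarith
  apply le_of_mul_le_mul_left _ h0
  linarith

theorem d73_F2 (a : ℕ) : F 2 a * ((2 : ℚ) ^ (a + 1) + 2) = 2 * ((2 : ℚ) ^ (a + 1) - 1) := by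
  have hF : F 2 a * (((2 : ℕ) : ℚ) ^ a + 1) = ∑ i ∈ range (a + 1), ((2 : ℕ) : ℚ) ^ i := by
    unfold F
    field_simp
  have hg := d73_geom 2 a
  rw [← hF] at hg
  push_cast at hg
  rw [pow_succ] at hg ⊢
  linarith

/-- The even case with three primes. -/
theorem d73_even3 (p q a b c : ℕ) (hp : p.Prime) (hq : q.Prime) (hpq : p < q)
    (hp3 : 3 ≤ p) (ha : 2 ≤ a) (hb : 2 ≤ b) (hc : 2 ≤ c) :
    F 2 a * F p b * F q c ≠ 2 := by
  intro h
  have hpo : p % 2 = 1 := (hp.eq_two_or_odd).resolve_left (by omega)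
  have hqo : q % 2 = 1 := (hq.eq_two_or_odd).resolve_left (by omega)
  have hpq2 : p + 2 ≤ q := by omega
  obtain ⟨X, hX⟩ : ∃ X : ℤ, X = 2 ^ (a + 1) := ⟨_, rfl⟩
  have hXq : ((X : ℤ) : ℚ) = (2 : ℚ) ^ (a + 1) := by
    rw [hX]
    push_cast
    rfl
  have hX8 : 8 ≤ X := by
    rw [hX]
    calc (8 : ℤ) = 2 ^ 3 := by norm_num
      _ ≤ 2 ^ (a + 1) := pow_le_pow_right₀ (by norm_num) (by omega)
  have hX8q : (8 : ℚ) ≤ X := by exact_mod_cast hX8
  have hp' : (3 : ℚ) ≤ p := by exact_mod_cast hp3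
  have hq' : (p : ℚ) + 2 ≤ q := by exact_mod_cast hpq2
  have he0 := d73_ee_pos p b (by omega) hb
  have hg0 := d73_ee_pos q c (by omega) hc
  have hF2 := d73_F2 a
  rw [← hXq] at hF2
  have hFp := d73_F_ee p b (by omega) hb
  have hFq := d73_F_ee q c (by omega) hc
  set e := ee p b with hedef
  set g := ee q c with hgdef
  have hmain : ((X : ℚ) - 1) * ((p + e) * (q + g)) = (X + 2) * ((p - 1 + e) * (q - 1 + g)) := by
    rw [← hFp, ← hFq]
    have h2 : F 2 a * (X + 2) * (F p b * F q c) = 2 * (X + 2) := by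
      linear_combination (X + 2 : ℚ) * h
    rw [hF2] at h2
    linear_combination (((p : ℚ) - 1 + e) * (q - 1 + g)) / 2 * h2
  have H : (3 * ((p : ℚ) - 1 + e) - (X - 1)) * (3 * (q - 1 + g) - (X - 1))
      = ((X : ℚ) - 1) * (X + 2) := by
    linear_combination (-3 : ℚ) * hmain
  have H' : (3 * (((p : ℤ) : ℚ) - 1 + e) - (X - 1)) * (3 * (((q : ℤ) : ℚ) - 1 + g) - (X - 1))
      = ((X : ℚ) - 1) * (X + 2) := by
    exact_mod_cast H
  have hp3z : (3 : ℤ) ≤ (p : ℤ) := by exact_mod_cast hp3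
  have hpqz : (p : ℤ) + 2 ≤ (q : ℤ) := by exact_mod_cast hpq2
  have hpoz : (p : ℤ) % 2 = 1 := by omega
  have he43 : e ≤ 4 / 3 := by
    have h1 := d73_ee_le p 2 b (by omega) le_rfl hb
    rw [← hedef] at h1
    have h2 : e * (p : ℚ) ≤ p + 1 := by
      apply le_of_mul_le_mul_left _ (show (0 : ℚ) < (p : ℚ) - 1 by linarith)
      linarith
    by_contra hc4
    push Not at hc4
    nlinarith
  -- the integer equation, for the parity cases
  have E : (X - 1) * gs p b * gs q c = (X + 2) * ((p : ℤ) ^ b + 1) * ((q : ℤ) ^ c + 1) := by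
    have hs1 : F p b * ((p : ℚ) ^ b + 1) = ((gs p b : ℤ) : ℚ) := by
      unfold F gs
      push_cast
      field_simp
    have hs2 : F q c * ((q : ℚ) ^ c + 1) = ((gs q c : ℤ) : ℚ) := by
      unfold F gs
      push_cast
      field_simp
    have h1 : (((X - 1) * gs p b * gs q c : ℤ) : ℚ)
        = (((X + 2) * ((p : ℤ) ^ b + 1) * ((q : ℤ) ^ c + 1) : ℤ) : ℚ) := by
      push_cast
      rw [← hs1, ← hs2]
      have h2 : F 2 a * (X + 2) * (F p b * F q c) = 2 * (X + 2) := by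
        linear_combination (X + 2 : ℚ) * h
      rw [hF2] at h2
      linear_combination (((p : ℚ) ^ b + 1) * ((q : ℚ) ^ c + 1)) / 2 * h2
    exact_mod_cast h1
  have hX4 : (4 : ℤ) ∣ X := by
    rw [hX]
    calc (4 : ℤ) = 2 ^ 2 := by norm_num
      _ ∣ 2 ^ (a + 1) := pow_dvd_pow 2 (by omega)
  have hpar := d73_par X p q b c hX4 hpoz (by omega) (by omega) (by omega) E
  by_cases hb3 : b ≤ 3
  · by_cases hc4 : c ≤ 4
    · exact hpar (Or.inl ⟨by omega, by omega⟩)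
    · have hb23 : b = 2 ∨ b = 3 := by omega
      have hg5 : g * (((q : ℤ) : ℚ) ^ 3 + ((q : ℤ) : ℚ)) ≤ 1 := by
        have := d73_e5le q c (by omega) (by omega)
        exact_mod_cast this
      rcases hb23 with hb2 | hb2
      · refine d73_T3 X p q ((p : ℤ) + 1) e g hX8 hp3z hpqz he0 hg0 he43 H' ?_ hg5
        have := d73_e2 p (by omega)
        rw [hedef, hb2]
        push_cast
        exact this
      · refine d73_T3 X p q 1 e g hX8 hp3z hpqz he0 hg0 he43 H' ?_ hg5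
        have := d73_e3 p (by omega)
        rw [hedef, hb2]
        push_cast
        exact this
  by_cases hb4 : b = 4
  · by_cases hc6 : c ≤ 6
    · exact hpar (Or.inr ⟨hb4, by omega⟩)
    · refine d73_T2a X p q e g hX8 hp3z hpqz he0 hg0 he43 H' ?_ ?_
      · have := d73_e4 p (by omega)
        rw [hedef, hb4]
        push_cast
        exact this
      · have := d73_e7le q c (by omega) (by omega)
        exact_mod_cast this
  have hb5 : 5 ≤ b := by omega
  have he5 : e * (((p : ℤ) : ℚ) ^ 3 + ((p : ℤ) : ℚ)) ≤ 1 := by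
    have := d73_e5le p b (by omega) hb5
    exact_mod_cast this
  by_cases hc4 : 4 ≤ c
  · refine d73_T2b X p q (a + 1) e g hX hX8 hp3z hpoz hpqz he0 hg0 he5 H' ?_
    have := d73_e4le q c (by omega) hc4
    exact_mod_cast this
  · have hc23 : c = 2 ∨ c = 3 := by omega
    rcases hc23 with hc2 | hc2
    · refine d73_T1 X p q 3 (a + 1) e g hX hX8 hp3z hpoz hpqz he0 hg0 he5 H' (Or.inr rfl) ?_
      have := d73_e2 q (by omega)
      rw [hgdef, hc2]
      push_cast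
      linarith
    · refine d73_T1 X p q 0 (a + 1) e g hX hX8 hp3z hpoz hpqz he0 hg0 he5 H' (Or.inl rfl) ?_
      have := d73_e3 q (by omega)
      rw [hgdef, hc2]
      push_cast
      linarith

end Pool.Agent.Lib.H73D
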